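import Mathlib

/-!
# Lines with independent directions
-/

set_option autoImplicit false

namespace Pool.Agent.Lib.MP_d0f9e0_co.K2X

/-- If a finite set contains three points on a line of each of `k` independent directions, it has
at least `2 k + 1` points. -/
theorem count_lines {A : Type*} [AddCommGroup A] [Module ℝ A] (k : ℕ) (hk : 1 ≤ k) (S : Finset A)
    (v : Fin k → A) (hv : LinearIndependent ℝ v)
    (h : ∀ i, ∃ p ∈ S, ∃ q ∈ S, ∃ r ∈ S, p ≠ q ∧ q ≠ r ∧ p ≠ r ∧
      (∃ c : ℝ, q - p = c • v i) ∧ ∃ c : ℝ, r - p = c • v i) : 2 * k + 1 ≤ S.card := by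
  sorry

end Pool.Agent.Lib.MP_d0f9e0_co.K2X
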