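import Pool.Agent.Lib.MP_d0f9e0_co.K2X.Defs
import Pool.Agent.Lib.MP_d0f9e0_co.K2X.Count

/-!
# Steps 5 and 6: the chain of flats and the number of roots
-/

set_option autoImplicit false

open Module
open scoped InnerProductSpace

namespace Pool.Agent.Lib.MP_d0f9e0_co.K2X

variable {H : Type*} [NormedAddCommGroup H] [InnerProductSpace ℝ H] [FiniteDimensional ℝ H]
variable {U : Type*} [AddCommGroup U] [Module ℝ U] [FiniteDimensional ℝ U]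
variable {ι : Type*} [Fintype ι]
variable {X : ι → Submodule ℝ H} {t : ι → ℝ} {m : H →ₗ[ℝ] H →ₗ[ℝ] H} {α : ι → Module.Dual ℝ U}

/-- the degrees in a flat -/
def flat (α : ι → Module.Dual ℝ U) (F : Submodule ℝ (Module.Dual ℝ U)) : Set ι := {i | α i ∈ F}

/-- an irreducible ideal with a nonzero product, all of whose elements interact -/
structure Irr (X : ι → Submodule ℝ H) (m : H →ₗ[ℝ] H →ₗ[ℝ] H) (A : Set ι)
    (Z : Submodule ℝ H) : Prop where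
  idl : Idl X m A Z
  min : ∀ K, Idl X m A K → K ≤ Z → K = ⊥ ∨ K = Z
  ne : Z ≠ ⊥
  nd : ∀ i, ∀ z ∈ Z, z ∈ X i → (∀ y ∈ Z, m z y = 0) → z = 0

/-- dichotomy: an irreducible ideal is contained in, or orthogonal to, every ideal -/
theorem Irr.le_or (hA : Alg X t m) {A : Set ι} (hcl : ∀ i ∈ A, ∀ k ∈ A, ∀ l, l ∉ A →
    ∀ x ∈ X i, ∀ y ∈ X k, P X l (m x y) = 0) {Z K : Submodule ℝ H}
    (hZ : Irr X m A Z) (hK : Idl X m A K) : Z ≤ K ∨ ∀ z ∈ Z, ∀ k ∈ K, ⟪z, k⟫_ℝ = 0 := by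
  sorry

/-- the state of the induction: an irreducible ideal of a flat of dimension `k` with at least
`k ^ 2` roots, such that the roots `i` with `g i` not orthogonal to the ideal span the flat -/
structure Stage (X : ι → Submodule ℝ H) (m : H →ₗ[ℝ] H →ₗ[ℝ] H) (α : ι → Module.Dual ℝ U) (g : H)
    (k : ℕ) (F : Submodule ℝ (Module.Dual ℝ U)) (Z : Submodule ℝ H) : Prop where
  irr : Irr X m (flat α F) Z
  dim : finrank ℝ F = k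
  span : Submodule.span ℝ {β | ∃ i, (∃ z ∈ Z, ⟪P X i g, z⟫_ℝ ≠ 0) ∧ β = α i} = F
  card : k ^ 2 ≤ {i | ∃ z ∈ Z, P X i z ≠ 0}.ncard

theorem stage_base (hA : Alg X t m) (hr : Roots X t m α)
    (hs : ∀ Z, Idl X m Set.univ Z → Z = ⊥ ∨ Z = ⊤) (hc : ∀ i, X i ≠ ⊤) (hne : ∀ i, X i ≠ ⊥) (g : H)
    (hK : ∀ i k, i ≠ k → ∀ x ∈ X i, ∀ z ∈ X k,
      ∑ l, (t l - t i) * (t l - t k) * ⟪P X l g, m x z⟫_ℝ = 0)
    (hg : Submodule.span ℝ {β | ∃ i, P X i g ≠ 0 ∧ β = α i} = ⊤) :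
    ∃ F Z, Stage X m α g 2 F Z := by
  sorry

theorem stage_step (hA : Alg X t m) (hr : Roots X t m α) (hq : Quad X t m)
    (hs : ∀ Z, Idl X m Set.univ Z → Z = ⊥ ∨ Z = ⊤) (hne : ∀ i, X i ≠ ⊥) (g : H)
    (hK : ∀ i k, i ≠ k → ∀ x ∈ X i, ∀ z ∈ X k,
      ∑ l, (t l - t i) * (t l - t k) * ⟪P X l g, m x z⟫_ℝ = 0)
    {k : ℕ} (hk : k < finrank ℝ U) (hk1 : 1 ≤ k) {F : Submodule ℝ (Module.Dual ℝ U)}
    {Z : Submodule ℝ H} (h : Stage X m α g k F Z) : ∃ F' Z', Stage X m α g (k + 1) F' Z' := by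
  sorry

theorem sq_le_card (hA : Alg X t m) (hr : Roots X t m α) (hq : Quad X t m)
    (hs : ∀ Z, Idl X m Set.univ Z → Z = ⊥ ∨ Z = ⊤) (hc : ∀ i, X i ≠ ⊤) (hne : ∀ i, X i ≠ ⊥) (g : H)
    (hK : ∀ i k, i ≠ k → ∀ x ∈ X i, ∀ z ∈ X k,
      ∑ l, (t l - t i) * (t l - t k) * ⟪P X l g, m x z⟫_ℝ = 0)
    (hg : Submodule.span ℝ {β | ∃ i, P X i g ≠ 0 ∧ β = α i} = ⊤) :
    (finrank ℝ U) ^ 2 ≤ Fintype.card ι := by
  sorry

end Pool.Agent.Lib.MP_d0f9e0_co.K2X
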