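import Mathlib

/-!
# Root structure of Bianchi families: definitions

`V` carries an alternating bilinear map `R` with values in a Euclidean space `W` satisfying the
first Bianchi identity.  At a generic vector `e` the space `V` is the sum of the kernel `U` of
`R e` and of a copy of `H`, the image of `R e`, and `H` is a graded commutative algebra.
-/

set_option autoImplicit false

open Module
open scoped InnerProductSpace

namespace Pool.Agent.Lib.MP_d0f9e0_co.K2X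

section Curv

variable {V W : Type*} [AddCommGroup V] [Module ℝ V] [NormedAddCommGroup W]
  [InnerProductSpace ℝ W]

/-- An alternating bilinear map satisfying the Bianchi identity, without nullity. -/
structure Curv (R : V →ₗ[ℝ] V →ₗ[ℝ] W) : Prop where
  alt : ∀ x, R x x = 0
  bi : ∀ a b c d, ⟪R a b, R c d⟫_ℝ + ⟪R b c, R a d⟫_ℝ + ⟪R c a, R b d⟫_ℝ = 0
  nd : ∀ x, (∀ y, R x y = 0) → x = 0

/-- The projection of `R` to the subspace `Q` satisfies the Bianchi identity. -/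
def BiOn [FiniteDimensional ℝ W] (R : V →ₗ[ℝ] V →ₗ[ℝ] W) (Q : Submodule ℝ W) : Prop :=
  ∀ a b c d, ⟪Q.starProjection (R a b), R c d⟫_ℝ + ⟪Q.starProjection (R b c), R a d⟫_ℝ +
    ⟪Q.starProjection (R c a), R b d⟫_ℝ = 0

/-- No proper subspace carries a Bianchi projection. -/
def Indec [FiniteDimensional ℝ W] (R : V →ₗ[ℝ] V →ₗ[ℝ] W) : Prop :=
  ∀ Q : Submodule ℝ W, BiOn R Q → Q = ⊥ ∨ Q = ⊤

theorem Curv.anti {R : V →ₗ[ℝ] V →ₗ[ℝ] W} (hR : Curv R) (x y : V) : R x y = -R y x := by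
  have h := hR.alt (x + y)
  simp only [map_add, LinearMap.add_apply, hR.alt, zero_add, add_zero] at h
  exact eq_neg_of_add_eq_zero_right h

end Curv

section Grading

variable {H : Type*} [NormedAddCommGroup H] [InnerProductSpace ℝ H] [FiniteDimensional ℝ H]
variable {ι : Type*} [Fintype ι]

/-- An orthogonal grading. -/
structure Gr (X : ι → Submodule ℝ H) : Prop where
  orth : ∀ i k, i ≠ k → ∀ x ∈ X i, ∀ y ∈ X k, ⟪x, y⟫_ℝ = 0
  top : ⨆ i, X i = ⊤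

/-- The component in the degree `i`. -/
noncomputable def P (X : ι → Submodule ℝ H) (i : ι) : H →ₗ[ℝ] H :=
  ((X i).starProjection : H →L[ℝ] H).toLinearMap

variable {X : ι → Submodule ℝ H}

omit [Fintype ι] in
theorem P_mem (X : ι → Submodule ℝ H) (i : ι) (x : H) : P X i x ∈ X i :=
  (X i).starProjection_apply_mem x

omit [Fintype ι] in
theorem P_self {i : ι} {x : H} (hx : x ∈ X i) : P X i x = x :=
  Submodule.starProjection_eq_self_iff.mpr hx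

omit [Fintype ι] in
theorem P_symm (X : ι → Submodule ℝ H) (i : ι) (x y : H) : ⟪P X i x, y⟫_ℝ = ⟪x, P X i y⟫_ℝ :=
  (X i).inner_starProjection_left_eq_right x y

theorem P_other (h : Gr X) {i k : ι} (hik : i ≠ k) {x : H} (hx : x ∈ X k) : P X i x = 0 := by
  have h1 : ⟪P X i x, P X i x⟫_ℝ = 0 := by
    rw [P_symm, P_self (P_mem X i x)]
    exact h.orth k i (Ne.symm hik) x hx _ (P_mem X i x)
  exact inner_self_eq_zero.mp h1

theorem sum_P (h : Gr X) (x : H) : ∑ i, P X i x = x := by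
  classical
  have hx : x ∈ ⨆ i, X i := by rw [h.top]; trivial
  induction hx using Submodule.iSup_induction' with
  | mem i y hy =>
    rw [Finset.sum_eq_single i]
    · exact P_self hy
    · intro k _ hk
      exact P_other h hk hy
    · intro hi
      exact absurd (Finset.mem_univ i) hi
  | zero => simp
  | add y z _ _ hy hz =>
    simp only [map_add, Finset.sum_add_distrib, hy, hz]

theorem P_P (h : Gr X) {i k : ι} (hik : i ≠ k) (x : H) : P X i (P X k x) = 0 :=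
  P_other h hik (P_mem X k x)

theorem inner_sum_P (h : Gr X) (x y : H) : ⟪x, y⟫_ℝ = ∑ i, ⟪P X i x, P X i y⟫_ℝ := by
  conv_lhs => rw [← sum_P h x]
  rw [sum_inner]
  refine Finset.sum_congr rfl fun i _ => ?_
  rw [← P_symm, P_self (P_mem X i x)]

theorem eq_zero_of_P (h : Gr X) (x : H) (hx : ∀ i, P X i x = 0) : x = 0 := by
  rw [← sum_P h x]
  exact Finset.sum_eq_zero fun i _ => hx i

end Grading

section Algebra

variable {H : Type*} [NormedAddCommGroup H] [InnerProductSpace ℝ H] [FiniteDimensional ℝ H]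
variable {F : Type*} [NormedAddCommGroup F] [InnerProductSpace ℝ F]
variable {U : Type*} [AddCommGroup U] [Module ℝ U]
variable {ι : Type*} [Fintype ι]

/-- A commutative product with an invariant scalar product; the product of two elements of the
same degree is zero.  The numbers `t i` are different. -/
structure Alg (X : ι → Submodule ℝ H) (t : ι → ℝ) (m : H →ₗ[ℝ] H →ₗ[ℝ] H) : Prop where
  gr : Gr X
  tinj : Function.Injective t
  comm : ∀ x y, m x y = m y x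
  inv : ∀ x y z, ⟪m x y, z⟫_ℝ = ⟪x, m y z⟫_ℝ
  self : ∀ i, ∀ x ∈ X i, ∀ y ∈ X i, m x y = 0

/-- A graded ideal of the part of `H` with degrees in `A`. -/
structure Idl (X : ι → Submodule ℝ H) (m : H →ₗ[ℝ] H →ₗ[ℝ] H) (A : Set ι)
    (Z : Submodule ℝ H) : Prop where
  gr : ∀ z ∈ Z, ∀ i, P X i z ∈ Z
  supp : ∀ z ∈ Z, ∀ i, i ∉ A → P X i z = 0
  mul : ∀ z ∈ Z, ∀ i ∈ A, ∀ y ∈ X i, m z y ∈ Z

/-- The algebra at a generic point: `B` and `D` are the two parts of the curvature. -/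
structure BAlg (X : ι → Submodule ℝ H) (t : ι → ℝ) (m : H →ₗ[ℝ] H →ₗ[ℝ] H)
    (B : H →ₗ[ℝ] H →ₗ[ℝ] H) (D : H →ₗ[ℝ] H →ₗ[ℝ] F) (a : ι → H →ₗ[ℝ] ℝ) : Prop
    extends Alg X t m where
  altB : ∀ x, B x x = 0
  altD : ∀ x, D x x = 0
  bi : ∀ x y z w, (⟪B x y, B z w⟫_ℝ + ⟪D x y, D z w⟫_ℝ) + (⟪B y z, B x w⟫_ℝ + ⟪D y z, D x w⟫_ℝ) +
    (⟪B z x, B y w⟫_ℝ + ⟪D z x, D y w⟫_ℝ) = 0
  Bne : ∀ i k, i ≠ k → ∀ x ∈ X i, ∀ y ∈ X k,
    B x y = a i y • x - a k x • y + (t i - t k) • m x y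
  Beq : ∀ i, ∀ x ∈ X i, ∀ y ∈ X i, B x y ∈ X i
  cyc : ∀ i, ∀ x ∈ X i, ∀ y ∈ X i, ∀ z ∈ X i, ⟪B x y, z⟫_ℝ + ⟪B y z, x⟫_ℝ + ⟪B z x, y⟫_ℝ = 0
  Dne : ∀ i k, i ≠ k → ∀ x ∈ X i, ∀ y ∈ X k, D x y = 0
  c1 : ∀ i j k, i ≠ j → j ≠ k → i ≠ k → ∀ x ∈ X i, ∀ y ∈ X j, ∀ z ∈ X k,
    (t i - t j) ^ 2 • D z (m x y) + (t j - t k) ^ 2 • D x (m y z) +
      (t k - t i) ^ 2 • D y (m z x) = 0
  s3 : ∀ i k, i ≠ k → ∀ y ∈ X k, ∃ c : ℝ, ∀ z ∈ X i,
    ∑ l, (t l - t k) / (t l - t i) * ‖P X l (m z y)‖ ^ 2 = c * ‖z‖ ^ 2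

/-- The roots. -/
structure Roots (X : ι → Submodule ℝ H) (t : ι → ℝ) (m : H →ₗ[ℝ] H →ₗ[ℝ] H)
    (α : ι → Module.Dual ℝ U) : Prop where
  one : ∃ e : U, ∀ i, α i e = 1
  val : ∃ v : U, ∀ i, α i v = t i
  span : Submodule.span ℝ (Set.range α) = ⊤
  coll : ∀ i j k, i ≠ j → j ≠ k → i ≠ k → ∀ x ∈ X i, ∀ y ∈ X j, ∀ z ∈ X k, ⟪m x y, z⟫_ℝ ≠ 0 →
    (t j - t k) • α i + (t k - t i) • α j + (t i - t j) • α k = 0

/-- The relation for four vectors of different degrees, no three of which interact. -/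
def Quad (X : ι → Submodule ℝ H) (t : ι → ℝ) (m : H →ₗ[ℝ] H →ₗ[ℝ] H) : Prop :=
  ∀ i j k l, i ≠ j → i ≠ k → i ≠ l → j ≠ k → j ≠ l → k ≠ l →
    ∀ x ∈ X i, ∀ y ∈ X j, ∀ z ∈ X k, ∀ w ∈ X l,
    ⟪m x y, z⟫_ℝ = 0 → ⟪m x y, w⟫_ℝ = 0 → ⟪m x z, w⟫_ℝ = 0 → ⟪m y z, w⟫_ℝ = 0 →
    (t i - t j) * (t k - t l) * ⟪m x y, m z w⟫_ℝ + (t j - t k) * (t i - t l) * ⟪m y z, m x w⟫_ℝ +
      (t k - t i) * (t j - t l) * ⟪m z x, m y w⟫_ℝ = 0

end Algebra

section Data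

variable {V W : Type*} [AddCommGroup V] [Module ℝ V] [NormedAddCommGroup W]
  [InnerProductSpace ℝ W]
variable {H : Type*} [NormedAddCommGroup H] [InnerProductSpace ℝ H] [FiniteDimensional ℝ H]
variable {ι : Type*} [Fintype ι]

/-- The complete description of `R` at a generic vector `e`: `V = ker (R e) + s H`, the isometry
`j` identifies `H` with the image of `R e`. -/
structure RD (R : V →ₗ[ℝ] V →ₗ[ℝ] W) (e : V) (s : H →ₗ[ℝ] V) (j : H →ₗᵢ[ℝ] W)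
    (X : ι → Submodule ℝ H) (t : ι → ℝ) (m : H →ₗ[ℝ] H →ₗ[ℝ] H)
    (B : H →ₗ[ℝ] H →ₗ[ℝ] H) (D : H →ₗ[ℝ] H →ₗ[ℝ] W) (a : ι → H →ₗ[ℝ] ℝ)
    (α : ι → Module.Dual ℝ (LinearMap.ker (R e))) : Prop
    extends BAlg X t m B D a, Roots X t m α where
  es : ∀ x, R e (s x) = j x
  dec : ∀ x : V, ∃ u ∈ LinearMap.ker (R e), ∃ h : H, x = u + s h
  uu : ∀ u ∈ LinearMap.ker (R e), ∀ v ∈ LinearMap.ker (R e), R u v = 0
  us : ∀ (u : LinearMap.ker (R e)) (i : ι), ∀ x ∈ X i, R u.1 (s x) = α i u • j x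
  ss : ∀ x y, R (s x) (s y) = j (B x y) + D x y
  jD : ∀ x y z, ⟪D x y, j z⟫_ℝ = 0
  ne : ∀ i, X i ≠ ⊥

end Data

end Pool.Agent.Lib.MP_d0f9e0_co.K2X
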