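import Pool.Agent.Lib.MP_d0f9e0_co.K2X.Split
import Pool.Agent.Lib.MP_d0f9e0_co.K2X.Dich

/-!
# The splitting theorem for the curvature: an indecomposable curvature has a simple algebra
-/

set_option autoImplicit false

open Module
open scoped InnerProductSpace

namespace Pool.Agent.Lib.MP_d0f9e0_co.K2X

variable {V W : Type*} [AddCommGroup V] [Module ℝ V] [NormedAddCommGroup W]
  [InnerProductSpace ℝ W] [FiniteDimensional ℝ W]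

/-- Gluing: `V = Z + A` (as sets `Z`, `A` of a spanning decomposition). -/
theorem biOn_of (R : V →ₗ[ℝ] V →ₗ[ℝ] W) (hR : Curv R) (Q : Submodule ℝ W) (Z A : Submodule ℝ V)
    (hV : Z ⊔ A = ⊤) (hA : ∀ x ∈ A, ∀ y ∈ A, Q.starProjection (R x y) = 0)
    (hZ : ∀ x ∈ Z, ∀ y ∈ Z, R x y ∈ Q)
    (hc : ∀ x ∈ Z, ∀ y ∈ Z, ∀ a ∈ A, ∀ b ∈ A,
      ⟪Q.starProjection (R x a), R y b⟫_ℝ = ⟪Q.starProjection (R y a), R x b⟫_ℝ) : BiOn R Q := by
  sorry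

variable {H : Type*} [NormedAddCommGroup H] [InnerProductSpace ℝ H] [FiniteDimensional ℝ H]
variable {ι : Type*} [Fintype ι]

/-- An indecomposable curvature has a simple algebra or only one root. -/
theorem RD.simple {R : V →ₗ[ℝ] V →ₗ[ℝ] W} {e : V} {s : H →ₗ[ℝ] V} {j : H →ₗᵢ[ℝ] W}
    {X : ι → Submodule ℝ H} {t : ι → ℝ} {m B : H →ₗ[ℝ] H →ₗ[ℝ] H} {D : H →ₗ[ℝ] H →ₗ[ℝ] W}
    {a : ι → H →ₗ[ℝ] ℝ} {α : ι → Module.Dual ℝ (LinearMap.ker (R e))}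
    (h : RD R e s j X t m B D a α) (hR : Curv R) (hI : Indec R) :
    (∃ i, X i = ⊤) ∨ ∀ Z, Idl X m Set.univ Z → Z = ⊥ ∨ Z = ⊤ := by
  sorry

end Pool.Agent.Lib.MP_d0f9e0_co.K2X
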