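import Pool.Agent.Lib.MP_d0f9e0_co.K2X.Defs

/-!
# Graded ideals: complements and projections
-/

set_option autoImplicit false

open Module
open scoped InnerProductSpace

namespace Pool.Agent.Lib.MP_d0f9e0_co.K2X

variable {H : Type*} [NormedAddCommGroup H] [InnerProductSpace ℝ H] [FiniteDimensional ℝ H]
variable {ι : Type*} [Fintype ι]
variable {X : ι → Submodule ℝ H} {t : ι → ℝ} {m : H →ₗ[ℝ] H →ₗ[ℝ] H}

/-- Induction on the homogeneous components. -/
theorem gr_ind (hg : Gr X) (Z : Submodule ℝ H) (hZ : ∀ z ∈ Z, ∀ i, P X i z ∈ Z) {p : H → Prop}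
    (h0 : p 0) (ha : ∀ x y, p x → p y → p (x + y)) (hom : ∀ i, ∀ z ∈ Z, z ∈ X i → p z) :
    ∀ z ∈ Z, p z := by
  intro z hz
  rw [← sum_P hg z]
  exact Finset.sum_induction _ p (fun a b => ha a b) h0 fun i _ => hom i _ (hZ z hz i) (P_mem X i z)

theorem gr_ind' (hg : Gr X) {p : H → Prop}
    (h0 : p 0) (ha : ∀ x y, p x → p y → p (x + y)) (hom : ∀ i, ∀ z ∈ X i, p z) :
    ∀ z, p z := by
  intro z
  exact gr_ind hg ⊤ (fun _ _ _ => trivial) h0 ha (fun i z _ hz => hom i z hz) z trivial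

/-- The orthogonal complement of a graded subspace is graded. -/
theorem gr_compl (X : ι → Submodule ℝ H) {Z : Submodule ℝ H} (hZ : ∀ z ∈ Z, ∀ i, P X i z ∈ Z) :
    ∀ z ∈ Zᗮ, ∀ i, P X i z ∈ Zᗮ := by
  intro x hx i
  rw [Submodule.mem_orthogonal] at hx ⊢
  intro z hz
  rw [← P_symm]
  exact hx _ (hZ z hz i)

/-- The orthogonal projection to a graded subspace preserves the degree. -/
theorem proj_mem {Z : Submodule ℝ H} (hZ : ∀ z ∈ Z, ∀ i, P X i z ∈ Z) {i : ι} {x : H}
    (hx : x ∈ X i) : Z.starProjection x ∈ X i := by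
  have h1 : P X i (Z.starProjection x) ∈ Z := hZ _ (Z.starProjection_apply_mem x) i
  have h2 : x - P X i (Z.starProjection x) ∈ Zᗮ := by
    have h3 : x - Z.starProjection x ∈ Zᗮ := Z.sub_starProjection_mem_orthogonal x
    have h4 := gr_compl X hZ _ h3 i
    rwa [map_sub, P_self hx] at h4
  have h5 : Z.starProjection x = P X i (Z.starProjection x) :=
    (Submodule.eq_starProjection_of_mem_orthogonal h1 h2)
  rw [h5]
  exact P_mem X i _

/-- Commutation of the projections. -/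
theorem proj_P {Z : Submodule ℝ H} (hZ : ∀ z ∈ Z, ∀ i, P X i z ∈ Z) (i : ι) (x : H) :
    P X i (Z.starProjection x) = Z.starProjection (P X i x) := by
  have h1 : P X i (Z.starProjection x) ∈ Z := hZ _ (Z.starProjection_apply_mem x) i
  have h2 : P X i x - P X i (Z.starProjection x) ∈ Zᗮ := by
    rw [← map_sub]
    exact gr_compl X hZ _ (Z.sub_starProjection_mem_orthogonal x) i
  exact (Submodule.eq_starProjection_of_mem_orthogonal h1 h2).symm

theorem proj_inner (Z : Submodule ℝ H) (x y : H) :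
    ⟪Z.starProjection x, y⟫_ℝ = ⟪x, Z.starProjection y⟫_ℝ :=
  Z.inner_starProjection_left_eq_right x y

theorem proj_self {Z : Submodule ℝ H} {x : H} (hx : x ∈ Z) : Z.starProjection x = x :=
  Submodule.starProjection_eq_self_iff.mpr hx

theorem proj_zero {Z : Submodule ℝ H} {x : H} (hx : x ∈ Zᗮ) : Z.starProjection x = 0 :=
  (Submodule.starProjection_apply_eq_zero_iff Z).mpr hx

theorem perp {Z : Submodule ℝ H} {z x : H} (hz : z ∈ Z) (hx : x ∈ Zᗮ) : ⟪z, x⟫_ℝ = 0 :=
  (Submodule.mem_orthogonal Z x).mp hx z hz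

theorem perp' {Z : Submodule ℝ H} {z x : H} (hz : z ∈ Z) (hx : x ∈ Zᗮ) : ⟪x, z⟫_ℝ = 0 := by
  rw [real_inner_comm]; exact perp hz hx

namespace Alg

theorem inner3 (h : Alg X t m) (x y z : H) : ⟪m x y, z⟫_ℝ = ⟪m z x, y⟫_ℝ := by
  rw [h.comm x y, h.inv, real_inner_comm, h.comm x z]

theorem inner_swap (h : Alg X t m) (x y z : H) : ⟪m x y, z⟫_ℝ = ⟪m x z, y⟫_ℝ := by
  rw [h.inner3, h.comm]

/-- Products have no component in the degrees of the factors. -/
theorem comp_left (h : Alg X t m) {i : ι} {x : H} (hx : x ∈ X i) (y : H) : P X i (m x y) = 0 := by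
  have h1 : ⟪P X i (m x y), P X i (m x y)⟫_ℝ = 0 := by
    rw [P_symm, P_self (P_mem X i _), h.inner_swap, h.self i x hx _ (P_mem X i _), inner_zero_left]
  exact inner_self_eq_zero.mp h1

theorem comp_right (h : Alg X t m) {i : ι} {x : H} (hx : x ∈ X i) (y : H) : P X i (m y x) = 0 := by
  rw [h.comm]; exact h.comp_left hx y

/-- An ideal (of everything) absorbs all products. -/
theorem mul_mem (h : Alg X t m) {Z : Submodule ℝ H} (hZ : Idl X m Set.univ Z) {z : H} (hz : z ∈ Z)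
    (y : H) : m z y ∈ Z := by
  refine gr_ind' (p := fun y => m z y ∈ Z) h.gr ?_ ?_ ?_ y
  · rw [map_zero]; exact Z.zero_mem
  · intro x y hx hy
    rw [map_add]; exact Z.add_mem hx hy
  · intro i y hy
    exact hZ.mul z hz i trivial y hy

theorem mul_mem' (h : Alg X t m) {Z : Submodule ℝ H} (hZ : Idl X m Set.univ Z) {z : H} (hz : z ∈ Z)
    (y : H) : m y z ∈ Z := by
  rw [h.comm]; exact h.mul_mem hZ hz y

/-- The product of an ideal and its complement is zero. -/
theorem mul_compl (h : Alg X t m) {Z : Submodule ℝ H} (hZ : Idl X m Set.univ Z) {z x : H}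
    (hz : z ∈ Z) (hx : x ∈ Zᗮ) : m z x = 0 := by
  refine ext_inner_right ℝ fun w => ?_
  rw [h.inner_swap, inner_zero_left]
  exact perp (h.mul_mem hZ hz w) hx

theorem mul_compl' (h : Alg X t m) {Z : Submodule ℝ H} (hZ : Idl X m Set.univ Z) {z x : H}
    (hz : z ∈ Z) (hx : x ∈ Zᗮ) : m x z = 0 := by
  rw [h.comm]; exact h.mul_compl hZ hz hx

theorem compl (h : Alg X t m) {Z : Submodule ℝ H} (hZ : Idl X m Set.univ Z) :
    Idl X m Set.univ Zᗮ := by
  refine ⟨gr_compl X hZ.gr, fun z _ i hi => absurd trivial hi, ?_⟩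
  intro x hx i _ y _
  rw [Submodule.mem_orthogonal]
  intro z hz
  rw [real_inner_comm, h.inner_swap, h.mul_compl' hZ hz hx, inner_zero_left]

end Alg

end Pool.Agent.Lib.MP_d0f9e0_co.K2X
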