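import Pool.Agent.Lib.MP_d0f9e0_co.K2X.Defs

/-!
# The complex structure
-/

set_option autoImplicit false

open Module
open scoped InnerProductSpace

namespace Pool.Agent.Lib.MP_d0f9e0_co.K2X

variable {V W : Type*} [AddCommGroup V] [Module ℝ V] [NormedAddCommGroup W]
  [InnerProductSpace ℝ W]
variable {H : Type*} [NormedAddCommGroup H] [InnerProductSpace ℝ H] [FiniteDimensional ℝ H]
variable {ι : Type*} [Fintype ι]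

theorem RD.kah {R : V →ₗ[ℝ] V →ₗ[ℝ] W} {e : V} {s : H →ₗ[ℝ] V} {j : H →ₗᵢ[ℝ] W}
    {X : ι → Submodule ℝ H} {t : ι → ℝ} {m B : H →ₗ[ℝ] H →ₗ[ℝ] H} {D : H →ₗ[ℝ] H →ₗ[ℝ] W}
    {a : ι → H →ₗ[ℝ] ℝ} {α : ι → Module.Dual ℝ (LinearMap.ker (R e))}
    [FiniteDimensional ℝ V]
    (h : RD R e s j X t m B D a α) (hR : Curv R) (J : V →ₗ[ℝ] V) (hJ : ∀ x, J (J x) = -x)
    (hRJ : ∀ x y, R (J x) (J y) = R x y) :
    ∃ g : H, (∀ i k, i ≠ k → ∀ x ∈ X i, ∀ z ∈ X k,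
      ∑ l, (t l - t i) * (t l - t k) * ⟪P X l g, m x z⟫_ℝ = 0) ∧
      Submodule.span ℝ {β | ∃ i, P X i g ≠ 0 ∧ β = α i} = ⊤ := by
  sorry

end Pool.Agent.Lib.MP_d0f9e0_co.K2X
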