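import Pool.Agent.Lib.MP_d0f9e0_co.K2X.Defs

/-!
# The relation for four vectors
-/

set_option autoImplicit false

open Module
open scoped InnerProductSpace

namespace Pool.Agent.Lib.MP_d0f9e0_co.K2X

variable {H : Type*} [NormedAddCommGroup H] [InnerProductSpace ℝ H] [FiniteDimensional ℝ H]
variable {F : Type*} [NormedAddCommGroup F] [InnerProductSpace ℝ F]
variable {ι : Type*} [Fintype ι]
variable {X : ι → Submodule ℝ H} {t : ι → ℝ} {m B : H →ₗ[ℝ] H →ₗ[ℝ] H}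
  {D : H →ₗ[ℝ] H →ₗ[ℝ] F} {a : ι → H →ₗ[ℝ] ℝ}

theorem BAlg.quad (h : BAlg X t m B D a) : Quad X t m := by
  sorry

end Pool.Agent.Lib.MP_d0f9e0_co.K2X
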