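import Pool.Agent.Lib.MP_d0f9e0_co.K2X.Root
import Pool.Agent.Lib.MP_d0f9e0_co.K2X.Quad
import Pool.Agent.Lib.MP_d0f9e0_co.K2X.Glue
import Pool.Agent.Lib.MP_d0f9e0_co.K2X.Chain
import Pool.Agent.Lib.MP_d0f9e0_co.K2X.Kah

/-!
# The theorem on indecomposable families
-/

set_option autoImplicit false

open Module
open scoped InnerProductSpace

namespace Pool.Agent.Lib.MP_d0f9e0_co.K2X

variable {V W : Type*} [AddCommGroup V] [Module ℝ V] [FiniteDimensional ℝ V]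
  [NormedAddCommGroup W] [InnerProductSpace ℝ W] [FiniteDimensional ℝ W]

/-- (K2): an indecomposable Kaehler curvature without nullity satisfies
`(dim V - dim W) ^ 2 ≤ dim W`. -/
theorem k2 (R : V →ₗ[ℝ] V →ₗ[ℝ] W) (hR : Curv R) (hI : Indec R) (J : V →ₗ[ℝ] V)
    (hJ : ∀ x, J (J x) = -x) (hRJ : ∀ x y, R (J x) (J y) = R x y) :
    (finrank ℝ V - finrank ℝ W) ^ 2 ≤ finrank ℝ W := by
  sorry

end Pool.Agent.Lib.MP_d0f9e0_co.K2X
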