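import Mathlib

/-!
# The perturbation lemma
-/

set_option autoImplicit false

open Module Filter
open scoped InnerProductSpace Topology

namespace Pool.Agent.Lib.MP_d0f9e0_co.K2X

variable {H : Type*} [NormedAddCommGroup H] [InnerProductSpace ℝ H] [FiniteDimensional ℝ H]

/-- If `A + s S` never has more different eigenvalues than `A` (both symmetric, `s` small), then on
every eigenspace of `A` the compression of `S` is a scalar and the second order term is a
scalar. -/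
theorem pert (A S : H →ₗ[ℝ] H) (hA : A.IsSymmetric) (hS : S.IsSymmetric)
    (hp : ∀ᶠ s : ℝ in 𝓝[≠] 0, {μ : ℝ | End.HasEigenvalue (A + s • S) μ}.ncard ≤
      {μ : ℝ | End.HasEigenvalue A μ}.ncard) (f : ℝ) :
    ∃ c c2 : ℝ, ∀ z ∈ End.eigenspace A f, (∀ z' ∈ End.eigenspace A f, ⟪S z, z'⟫_ℝ = c * ⟪z, z'⟫_ℝ) ∧
      ∀ r ∈ (End.eigenspace A f)ᗮ, f • r - A r = S z - c • z → ⟪S z, r⟫_ℝ = c2 * ⟪z, z⟫_ℝ := by
  sorry

end Pool.Agent.Lib.MP_d0f9e0_co.K2X
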