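import Pool.Agent.Lib.MP_d0f9e0_co.K2X.Defs

/-!
# Steps 0, 1, 2: first, second and third order consequences of maximal rank
-/

set_option autoImplicit false

open Module
open scoped InnerProductSpace

namespace Pool.Agent.Lib.MP_d0f9e0_co.K2X

variable {V W : Type*} [AddCommGroup V] [Module ℝ V] [FiniteDimensional ℝ V]
  [NormedAddCommGroup W] [InnerProductSpace ℝ W] [FiniteDimensional ℝ W]

/-- `e` has maximal rank. -/
def MaxRank (R : V →ₗ[ℝ] V →ₗ[ℝ] W) (e : V) : Prop :=
  ∀ e', finrank ℝ (LinearMap.range (R e')) ≤ finrank ℝ (LinearMap.range (R e))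

variable {R : V →ₗ[ℝ] V →ₗ[ℝ] W} {e : V}

/-- The limit lemma. -/
theorem lim_mem (he : MaxRank R e) (x : V) (w : ℝ → W) (hw : ContinuousAt w 0)
    (h : ∀ t : ℝ, t ≠ 0 → w t ∈ LinearMap.range (R (e + t • x))) : w 0 ∈ LinearMap.range (R e) := by
  sorry

theorem MaxRank.mem (he : MaxRank R e) {u : V} (hu : R e u = 0) (x : V) :
    R x u ∈ LinearMap.range (R e) := by
  sorry

theorem MaxRank.uu (hR : Curv R) (he : MaxRank R e) {u v : V} (hu : R e u = 0) (hv : R e v = 0) :
    R u v = 0 := by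
  sorry

theorem MaxRank.symm (hR : Curv R) {v : V} (hv : R e v = 0) (x y : V) :
    ⟪R v x, R e y⟫_ℝ = ⟪R e x, R v y⟫_ℝ := by
  sorry

theorem MaxRank.comm (hR : Curv R) (he : MaxRank R e) {v w : V} (hv : R e v = 0)
    (hw : R e w = 0) (x y : V) : ⟪R v x, R w y⟫_ℝ = ⟪R w x, R v y⟫_ℝ := by
  sorry

/-- Second order. -/
theorem MaxRank.f4 (hR : Curv R) (he : MaxRank R e) {v : V} (hv : R e v = 0) {x y : V}
    (hy : R e y = R v x) : R x y ∈ LinearMap.range (R e) := by
  sorry

/-- Third order. -/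
theorem MaxRank.c1 (hR : Curv R) (he : MaxRank R e) {v : V} (hv : R e v = 0) {x y y' : V}
    (hy : R e y = R v x) (hy' : R e y' = R x y) : R x y' ∈ LinearMap.range (R e) := by
  sorry

/-- Maximal rank is an open condition along lines. -/
theorem MaxRank.eventually (he : MaxRank R e) (y : V) :
    ∀ᶠ s : ℝ in nhds 0, MaxRank R (e + s • y) := by
  sorry

end Pool.Agent.Lib.MP_d0f9e0_co.K2X
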