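import Pool.Agent.Lib.MP_d0f9e0_co.K2X.Reg
import Pool.Agent.Lib.MP_d0f9e0_co.K2X.Pert

/-!
# Existence of the root data at a generic vector (steps 1, 2, 3 assembled)
-/

set_option autoImplicit false

open Module
open scoped InnerProductSpace

namespace Pool.Agent.Lib.MP_d0f9e0_co.K2X

variable {V W : Type*} [AddCommGroup V] [Module ℝ V] [FiniteDimensional ℝ V]
  [NormedAddCommGroup W] [InnerProductSpace ℝ W] [FiniteDimensional ℝ W]

/-- The number of different eigenvalues of `M_v` at `e`. -/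
noncomputable def nEig (R : V →ₗ[ℝ] V →ₗ[ℝ] W) (e v : V) : ℕ :=
  {μ : ℝ | ∃ x, R e x ≠ 0 ∧ R v x = μ • R e x}.ncard

/-- Root data exist. -/
theorem exists_RD (R : V →ₗ[ℝ] V →ₗ[ℝ] W) (hR : Curv R) [Nontrivial V] :
    ∃ (e : V) (ι : Type) (_ : Fintype ι) (s : LinearMap.range (R e) →ₗ[ℝ] V)
      (X : ι → Submodule ℝ (LinearMap.range (R e))) (t : ι → ℝ)
      (m B : LinearMap.range (R e) →ₗ[ℝ] LinearMap.range (R e) →ₗ[ℝ] LinearMap.range (R e))
      (D : LinearMap.range (R e) →ₗ[ℝ] LinearMap.range (R e) →ₗ[ℝ] W)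
      (a : ι → LinearMap.range (R e) →ₗ[ℝ] ℝ) (α : ι → Module.Dual ℝ (LinearMap.ker (R e))),
      RD R e s (LinearMap.range (R e)).subtypeₗᵢ X t m B D a α := by
  sorry

end Pool.Agent.Lib.MP_d0f9e0_co.K2X
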