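import Pool.Agent.Lib.MP_d0f9e0_co.K2X.Ideal

/-!
# The splitting theorem, inside the algebra
-/

set_option autoImplicit false

open Module
open scoped InnerProductSpace

namespace Pool.Agent.Lib.MP_d0f9e0_co.K2X

variable {H : Type*} [NormedAddCommGroup H] [InnerProductSpace ℝ H] [FiniteDimensional ℝ H]
variable {F : Type*} [NormedAddCommGroup F] [InnerProductSpace ℝ F]
variable {ι : Type*} [Fintype ι]
variable {X : ι → Submodule ℝ H} {t : ι → ℝ} {m B : H →ₗ[ℝ] H →ₗ[ℝ] H}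
  {D : H →ₗ[ℝ] H →ₗ[ℝ] F} {a : ι → H →ₗ[ℝ] ℝ}

/-- In every degree `Z` is zero or everything, or the degree interacts. -/
def Tame (X : ι → Submodule ℝ H) (m : H →ₗ[ℝ] H →ₗ[ℝ] H) (Z : Submodule ℝ H) : Prop :=
  ∀ i, (∀ z ∈ Z, P X i z = 0) ∨ (X i ≤ Z) ∨ (∀ x ∈ X i, (∀ y, m x y = 0) → x = 0)

omit [Fintype ι] in
theorem Tame.compl {Z : Submodule ℝ H} (hZ : ∀ z ∈ Z, ∀ i, P X i z ∈ Z) (h : Tame X m Z) :
    Tame X m Zᗮ := by
  intro i
  rcases h i with h1 | h1 | h1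
  · right; left
    intro x hx
    rw [Submodule.mem_orthogonal]
    intro z hz
    rw [← P_self hx, ← P_symm, h1 z hz, inner_zero_left]
  · left
    intro x hx
    have h2 : P X i x ∈ Z := h1 (P_mem X i x)
    have h3 : P X i x ∈ Zᗮ := by
      rw [Submodule.mem_orthogonal]
      intro z hz
      rw [← P_symm]
      exact perp (hZ z hz i) hx
    exact inner_self_eq_zero.mp (perp h2 h3)
  · right; right; exact h1

/-- The elements of degree `i` of an ideal are spanned by products, if the degree interacts. -/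
theorem Alg.spanned (h : Alg X t m) {Z : Submodule ℝ H} (hZ : Idl X m Set.univ Z) {i : ι}
    (hint : ∀ x ∈ X i, (∀ y, m x y = 0) → x = 0) {z : H} (hz : z ∈ Z) (hzi : z ∈ X i) :
    z ∈ Submodule.span ℝ {n | ∃ j k, j ≠ i ∧ k ≠ i ∧ j ≠ k ∧ ∃ p ∈ Z, p ∈ X j ∧ ∃ q ∈ Z, q ∈ X k ∧
      n = P X i (m p q)} := by
  set N := Submodule.span ℝ {n | ∃ j k, j ≠ i ∧ k ≠ i ∧ j ≠ k ∧ ∃ p ∈ Z, p ∈ X j ∧ ∃ q ∈ Z,
    q ∈ X k ∧ n = P X i (m p q)} with hN
  have hNZ : N ≤ Z := by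
    rw [hN, Submodule.span_le]
    rintro _ ⟨j, k, _, _, _, p, hp, _, q, _, _, rfl⟩
    exact hZ.gr _ (h.mul_mem hZ hp q) i
  have hNX : N ≤ X i := by
    rw [hN, Submodule.span_le]
    rintro _ ⟨j, k, _, _, _, p, _, _, q, _, _, rfl⟩
    exact P_mem X i _
  set u := N.starProjection z with hu
  have hu1 : u ∈ N := N.starProjection_apply_mem z
  have hv1 : z - u ∈ Nᗮ := N.sub_starProjection_mem_orthogonal z
  have hv2 : z - u ∈ Z := Z.sub_mem hz (hNZ hu1)
  have hv3 : z - u ∈ X i := (X i).sub_mem hzi (hNX hu1)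
  have hv0 : z - u = 0 := by
    apply hint _ hv3
    intro y
    refine ext_inner_right ℝ fun w => ?_
    rw [inner_zero_left]
    refine gr_ind' (p := fun y => ⟪m (z - u) y, w⟫_ℝ = 0) h.gr ?_ ?_ ?_ y
    · simp
    · intro x y hx hy
      rw [map_add, inner_add_left, hx, hy, add_zero]
    intro j p hp
    refine gr_ind' (p := fun w => ⟪m (z - u) p, w⟫_ℝ = 0) h.gr ?_ ?_ ?_ w
    · simp
    · intro x y hx hy
      rw [inner_add_right, hx, hy, add_zero]
    intro k q hq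
    by_cases hji : j = i
    · subst hji
      rw [h.self j _ hv3 p hp, inner_zero_left]
    by_cases hki : k = i
    · subst hki
      rw [h.inner_swap, h.self k _ hv3 q hq, inner_zero_left]
    by_cases hjk : j = k
    · subst hjk
      rw [h.inv, h.self j p hp q hq, inner_zero_right]
    -- distinct degrees
    have hp1 : Z.starProjection p ∈ Z := Z.starProjection_apply_mem p
    have hp2 : p - Z.starProjection p ∈ Zᗮ := Z.sub_starProjection_mem_orthogonal p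
    have hq1 : Z.starProjection q ∈ Z := Z.starProjection_apply_mem q
    have hq2 : q - Z.starProjection q ∈ Zᗮ := Z.sub_starProjection_mem_orthogonal q
    have e1 : m (z - u) p = m (z - u) (Z.starProjection p) := by
      have h3 := h.mul_compl hZ hv2 hp2
      rw [map_sub, sub_eq_zero] at h3
      exact h3
    have e2 : ⟪m (z - u) (Z.starProjection p), q⟫_ℝ =
        ⟪m (z - u) (Z.starProjection p), Z.starProjection q⟫_ℝ := by
      have h3 := perp (h.mul_mem hZ hv2 (Z.starProjection p)) hq2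
      rw [inner_sub_right, sub_eq_zero] at h3
      exact h3
    rw [e1, e2, h.inv]
    have h5 : P X i (m (Z.starProjection p) (Z.starProjection q)) ∈ N := by
      apply Submodule.subset_span
      exact ⟨j, k, hji, hki, hjk, _, hp1, proj_mem hZ.gr hp, _, hq1, proj_mem hZ.gr hq, rfl⟩
    rw [← P_self hv3, P_symm]
    exact perp' h5 hv1
  have h6 : z = u := by rwa [sub_eq_zero] at hv0
  rw [h6]
  exact hu1

namespace BAlg

theorem antiB (h : BAlg X t m B D a) (x y : H) : B x y = -B y x := by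
  have h1 := h.altB (x + y)
  simp only [map_add, LinearMap.add_apply, h.altB, zero_add, add_zero] at h1
  exact eq_neg_of_add_eq_zero_right h1

theorem antiD (h : BAlg X t m B D a) (x y : H) : D x y = -D y x := by
  have h1 := h.altD (x + y)
  simp only [map_add, LinearMap.add_apply, h.altD, zero_add, add_zero] at h1
  exact eq_neg_of_add_eq_zero_right h1

/-- The scalar product of two mixed values. -/
theorem mixed (h : BAlg X t m B D a) {i j k : ι} (hij : i ≠ j) (hik : i ≠ k) (hjk : j ≠ k)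
    {x y p q : H} (hx : x ∈ X i) (hy : y ∈ X i) (hp : p ∈ X j) (hq : q ∈ X k) :
    ⟪B x p, B y q⟫_ℝ = a i p * a i q * ⟪x, y⟫_ℝ - a j x * (t i - t k) * ⟪m y p, q⟫_ℝ -
      a k y * (t i - t j) * ⟪m x p, q⟫_ℝ + (t i - t j) * (t i - t k) * ⟪m x p, m y q⟫_ℝ := by
  rw [h.Bne i j hij x hx p hp, h.Bne i k hik y hy q hq]
  have e1 : ⟪x, q⟫_ℝ = 0 := h.gr.orth i k hik x hx q hq
  have e2 : ⟪p, y⟫_ℝ = 0 := h.gr.orth j i (Ne.symm hij) p hp y hy
  have e3 : ⟪p, q⟫_ℝ = 0 := h.gr.orth j k hjk p hp q hq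
  have e4 : ⟪x, m y q⟫_ℝ = 0 := by
    rw [← h.inv, h.self i x hx y hy, inner_zero_left]
  have e5 : ⟪m x p, y⟫_ℝ = 0 := by
    rw [h.inner_swap, h.self i x hx y hy, inner_zero_left]
  have e6 : ⟪p, m y q⟫_ℝ = ⟪m y p, q⟫_ℝ := by
    rw [← h.inv, h.comm]
  simp only [inner_add_left, inner_add_right, inner_sub_left, inner_sub_right,
    real_inner_smul_left, real_inner_smul_right, e1, e2, e3, e4, e5, e6]
  ring

/-- The Bianchi identity for two vectors of one degree and two of different degrees. -/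
theorem b1 (h : BAlg X t m B D a) {i j k : ι} (hij : i ≠ j) (hik : i ≠ k) (hjk : j ≠ k)
    {x y p q : H} (hx : x ∈ X i) (hy : y ∈ X i) (hp : p ∈ X j) (hq : q ∈ X k) :
    (t j - t k) * ⟪B x y, m p q⟫_ℝ + ⟪B y p, B x q⟫_ℝ - ⟪B x p, B y q⟫_ℝ = 0 := by
  have h1 := h.bi x y p q
  have h2 : D p q = 0 := h.Dne j k hjk p hp q hq
  have h3 : D y p = 0 := h.Dne i j hij y hy p hp
  have h4 : D p x = 0 := h.Dne j i (Ne.symm hij) p hp x hx
  rw [h2, h3, h4, inner_zero_right, inner_zero_left, inner_zero_left, h.Bne j k hjk p hp q hq,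
    h.antiB p x] at h1
  have hB := h.Beq i x hx y hy
  have e1 : ⟪B x y, p⟫_ℝ = 0 := h.gr.orth i j hij _ hB p hp
  have e2 : ⟪B x y, q⟫_ℝ = 0 := h.gr.orth i k hik _ hB q hq
  rw [inner_add_right, inner_sub_right, real_inner_smul_right, real_inner_smul_right,
    real_inner_smul_right, e1, e2, inner_neg_left] at h1
  linarith

variable {Z : Submodule ℝ H}

/-- (i) -/
theorem s_one (h : BAlg X t m B D a) (hZ : Idl X m Set.univ Z) (hT : Tame X m Z) {i : ι}
    {x y : H} (hx : x ∈ Zᗮ) (hxi : x ∈ X i) (hy : y ∈ Zᗮ) (hyi : y ∈ X i) {z : H} (hz : z ∈ Z) :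
    ⟪B x y, z⟫_ℝ = 0 := by
  have hB := h.Beq i x hxi y hyi
  rw [← P_self hB, P_symm]
  rcases hT i with h1 | h1 | h1
  · rw [h1 z hz, inner_zero_right]
  · have h2 : x = 0 := inner_self_eq_zero.mp (perp (h1 hxi) hx)
    rw [h2]
    simp
  · have h3 := h.spanned hZ h1 (hZ.gr z hz i) (P_mem X i z)
    generalize P X i z = n0 at h3 ⊢
    induction h3 using Submodule.span_induction with
    | mem n hn =>
      obtain ⟨j, k, hji, hki, hjk, p, hp, hpj, q, hq, hqk, rfl⟩ := hn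
      rw [← P_symm, P_self hB]
      have h4 := h.b1 (Ne.symm hji) (Ne.symm hki) hjk hxi hyi hpj hqk
      rw [h.mixed (Ne.symm hji) (Ne.symm hki) hjk hyi hxi hpj hqk,
        h.mixed (Ne.symm hji) (Ne.symm hki) hjk hxi hyi hpj hqk, h.mul_compl' hZ hp hx,
        h.mul_compl' hZ hp hy, real_inner_comm y x] at h4
      simp only [inner_zero_left, mul_zero, sub_zero, add_zero] at h4
      have h5 : (t j - t k) * ⟪B x y, m p q⟫_ℝ = 0 := by linarith
      rcases mul_eq_zero.mp h5 with h6 | h6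
      · exact absurd (h.tinj (sub_eq_zero.mp h6)) hjk
      · exact h6
    | zero => simp
    | add n n' _ _ hn hn' => rw [inner_add_right, hn, hn', add_zero]
    | smul c n _ hn => rw [inner_smul_right, hn, mul_zero]

/-- (ii) -/
theorem s_two (h : BAlg X t m B D a) (hZ : Idl X m Set.univ Z) (hT : Tame X m Z) {i : ι}
    {z w : H} (hz : z ∈ Z) (hzi : z ∈ X i) (hw : w ∈ Z) (hwi : w ∈ X i) {x : H} (hx : x ∈ Zᗮ) :
    ⟪B z w, x⟫_ℝ = 0 := by
  have hzz : z ∈ Zᗮᗮ := by rwa [Submodule.orthogonal_orthogonal]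
  have hww : w ∈ Zᗮᗮ := by rwa [Submodule.orthogonal_orthogonal]
  exact s_one h (h.compl hZ) (hT.compl hZ.gr) hzz hzi hww hwi hx

/-- (iii) symmetry, one degree -/
theorem s_sym (h : BAlg X t m B D a) (hZ : Idl X m Set.univ Z) (hT : Tame X m Z) {i : ι}
    {z w x : H} (hz : z ∈ Z) (hzi : z ∈ X i) (hw : w ∈ Z) (hwi : w ∈ X i) (hx : x ∈ Zᗮ)
    (hxi : x ∈ X i) : ⟪B z x, w⟫_ℝ = ⟪B w x, z⟫_ℝ := by
  have h1 := h.cyc i z hzi w hwi x hxi
  rw [s_two h hZ hT hz hzi hw hwi hx, h.antiB x z, inner_neg_left] at h1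
  linarith

/-- (iii) the scalar action on products -/
theorem s_scal (h : BAlg X t m B D a) (hZ : Idl X m Set.univ Z) {i j k : ι}
    (hij : i ≠ j) (hik : i ≠ k) (hjk : j ≠ k) {p q x : H} (hp : p ∈ Z) (hpj : p ∈ X j) (hq : q ∈ Z)
    (hqk : q ∈ X k) (hx : x ∈ Zᗮ) (hxi : x ∈ X i) :
    ∃ b : ℝ, ∀ w ∈ Z, w ∈ X i → ⟪B w x, m p q⟫_ℝ = b * ⟪w, m p q⟫_ℝ := by
  have htjk : t j - t k ≠ 0 := fun h0 => hjk (h.tinj (sub_eq_zero.mp h0))
  refine ⟨(a j x * (t i - t k) - a k x * (t i - t j)) / (t j - t k), fun w hw hwi => ?_⟩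
  have h4 := h.b1 hij hik hjk hwi hxi hpj hqk
  rw [h.mixed hij hik hjk hxi hwi hpj hqk, h.mixed hij hik hjk hwi hxi hpj hqk,
    h.mul_compl' hZ hp hx, real_inner_comm w x, perp hw hx] at h4
  have e1 : m x q = 0 := h.mul_compl' hZ hq hx
  rw [e1] at h4
  simp only [inner_zero_left, inner_zero_right, mul_zero, sub_zero, add_zero, zero_sub] at h4
  have e2 : ⟪m w p, q⟫_ℝ = ⟪w, m p q⟫_ℝ := h.inv w p q
  rw [e2] at h4
  rw [div_mul_eq_mul_div, eq_div_iff htjk]
  linarith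

/-- (iii) commutation, one degree -/
theorem s_comm (h : BAlg X t m B D a) (hZ : Idl X m Set.univ Z) (hT : Tame X m Z) {i : ι}
    {z w x y : H} (hz : z ∈ Z) (hzi : z ∈ X i) (hw : w ∈ Z) (hwi : w ∈ X i) (hx : x ∈ Zᗮ)
    (hxi : x ∈ X i) (hy : y ∈ Zᗮ) (hyi : y ∈ X i) :
    ⟪Z.starProjection (B z x), B w y⟫_ℝ = ⟪Z.starProjection (B w x), B z y⟫_ℝ := by
  rcases hT i with h1 | h1 | h1
  · have h2 : z = 0 := by rw [← P_self hzi]; exact h1 z hz
    rw [h2]; simp
  · have h2 : x = 0 := inner_self_eq_zero.mp (perp (h1 hxi) hx)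
    rw [h2]; simp
  · have h3 := h.spanned hZ h1 hz hzi
    clear hz hzi
    induction h3 using Submodule.span_induction with
    | mem n hn =>
      obtain ⟨j, k, hji, hki, hjk, p, hp, hpj, q, hq, hqk, rfl⟩ := hn
      set n := P X i (m p q) with hn
      have hnZ : n ∈ Z := hZ.gr _ (h.mul_mem hZ hp q) i
      have hni : n ∈ X i := P_mem X i _
      -- the operator `C x` is scalar on `n`
      have key : ∀ x' ∈ Zᗮ, x' ∈ X i → ∃ b : ℝ, Z.starProjection (B n x') = b • n := by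
        intro x' hx' hxi'
        obtain ⟨b, hb⟩ := h.s_scal hZ (Ne.symm hji) (Ne.symm hki) hjk hp hpj hq hqk hx' hxi'
        refine ⟨b, ?_⟩
        have hCi : Z.starProjection (B n x') ∈ X i := proj_mem hZ.gr (h.Beq i n hni x' hxi')
        have hCZ : Z.starProjection (B n x') ∈ Z := Z.starProjection_apply_mem _
        set v := Z.starProjection (B n x') - b • n with hv
        have hvi : v ∈ X i := (X i).sub_mem hCi ((X i).smul_mem b hni)
        have hvZ : v ∈ Z := Z.sub_mem hCZ (Z.smul_mem b hnZ)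
        have h5 : ⟪Z.starProjection (B n x'), v⟫_ℝ = b * ⟪n, v⟫_ℝ := by
          rw [proj_inner, proj_self hvZ, s_sym h hZ hT hnZ hni hvZ hvi hx' hxi', hn, ← P_symm,
            P_self (h.Beq i v hvi x' hxi'), hb v hvZ hvi, real_inner_comm, P_symm, P_self hvi]
        have h6 : ⟪v, v⟫_ℝ = 0 := by
          conv_lhs => rw [hv]
          rw [inner_sub_left, h5, real_inner_smul_left, sub_self]
        exact sub_eq_zero.mp (inner_self_eq_zero.mp h6)
      obtain ⟨b, hb⟩ := key x hx hxi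
      obtain ⟨c, hc⟩ := key y hy hyi
      have e1 : ⟪n, B w y⟫_ℝ = c * ⟪n, w⟫_ℝ := by
        rw [real_inner_comm, s_sym h hZ hT hw hwi hnZ hni hy hyi, ← proj_self hw, ← proj_inner, hc,
          proj_self hw, real_inner_smul_left]
      have e2 : ⟪Z.starProjection (B w x), B n y⟫_ℝ = c * (b * ⟪n, w⟫_ℝ) := by
        have e3 : ⟪Z.starProjection (B w x), B n y⟫_ℝ =
            ⟪B w x, Z.starProjection (B n y)⟫_ℝ := proj_inner Z _ _
        rw [e3, hc, real_inner_smul_right, s_sym h hZ hT hw hwi hnZ hni hx hxi, ← proj_self hw,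
          ← proj_inner, hb, proj_self hw, real_inner_smul_left]
      rw [hb, real_inner_smul_left, e1, e2]
      ring
    | zero => simp
    | add n n' _ _ hn hn' =>
      simp only [map_add, LinearMap.add_apply, inner_add_left, inner_add_right, hn, hn']
    | smul c n _ hn =>
      simp only [map_smul, LinearMap.smul_apply, inner_smul_left, inner_smul_right, hn]
      simp

/-- (iv) one degree -/
theorem s_D (h : BAlg X t m B D a) (hZ : Idl X m Set.univ Z) (hT : Tame X m Z) {i : ι}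
    {z x : H} (hz : z ∈ Z) (hzi : z ∈ X i) (hx : x ∈ Zᗮ) (hxi : x ∈ X i) : D z x = 0 := by
  rcases hT i with h1 | h1 | h1
  · have h2 : z = 0 := by rw [← P_self hzi]; exact h1 z hz
    rw [h2]; simp
  · have h2 : x = 0 := inner_self_eq_zero.mp (perp (h1 hxi) hx)
    rw [h2]; simp
  · have h3 := h.spanned hZ h1 hz hzi
    clear hz hzi
    induction h3 using Submodule.span_induction with
    | mem n hn =>
      obtain ⟨j, k, hji, hki, hjk, p, hp, hpj, q, hq, hqk, rfl⟩ := hn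
      have h4 := h.c1 i j k (Ne.symm hji) hjk (Ne.symm hki) x hxi p hpj q hqk
      rw [h.mul_compl' hZ hp hx, h.mul_compl hZ hq hx, map_zero, map_zero, smul_zero, smul_zero,
        zero_add, add_zero] at h4
      have h5 : (t j - t k) ^ 2 ≠ 0 := pow_ne_zero 2 fun h0 => hjk (h.tinj (sub_eq_zero.mp h0))
      have h6 : D x (m p q) = 0 := (smul_eq_zero.mp h4).resolve_left h5
      have h7 : D (m p q) x = D (P X i (m p q)) x := by
        have h8 := sum_P h.gr (m p q)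
        conv_lhs => rw [← h8]
        rw [map_sum, LinearMap.sum_apply, Finset.sum_eq_single i]
        · intro l _ hl
          exact h.Dne l i hl _ (P_mem X l _) x hxi
        · intro hi
          exact absurd (Finset.mem_univ i) hi
      rw [← h7, h.antiD, h6, neg_zero]
    | zero => simp
    | add n n' _ _ hn hn' => rw [map_add, LinearMap.add_apply, hn, hn', add_zero]
    | smul c n _ hn => rw [map_smul, LinearMap.smul_apply, hn, smul_zero]

/-- different degrees -/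
theorem s_ne (h : BAlg X t m B D a) (hZ : Idl X m Set.univ Z) {i k : ι} (hik : i ≠ k)
    {z x : H} (hz : z ∈ Z) (hzi : z ∈ X i) (hx : x ∈ Zᗮ) (hxk : x ∈ X k) :
    B z x = a i x • z - a k z • x := by
  rw [h.Bne i k hik z hzi x hxk, h.mul_compl hZ hz hx, smul_zero, add_zero]

/-- the operator `C x` on an element of degree `i` -/
theorem s_C (h : BAlg X t m B D a) (hZ : Idl X m Set.univ Z) {i k : ι} (hik : i ≠ k)
    {z x : H} (hz : z ∈ Z) (hzi : z ∈ X i) (hx : x ∈ Zᗮ) (hxk : x ∈ X k) :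
    Z.starProjection (B z x) = a i x • z := by
  rw [h.s_ne hZ hik hz hzi hx hxk, map_sub, map_smul, map_smul, proj_self hz, proj_zero hx,
    smul_zero, sub_zero]

theorem s_mem (h : BAlg X t m B D a) (hZ : Idl X m Set.univ Z) {i k : ι}
    {z x : H} (hz : z ∈ Z) (hzi : z ∈ X i) (hx : x ∈ Zᗮ) (hxk : x ∈ X k) :
    Z.starProjection (B z x) ∈ X i := by
  by_cases hik : i = k
  · subst hik
    exact proj_mem hZ.gr (h.Beq i z hzi x hxk)
  · rw [h.s_C hZ hik hz hzi hx hxk]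
    exact (X i).smul_mem _ hzi

/-- symmetry of `C x` -/
theorem s_sym' (h : BAlg X t m B D a) (hZ : Idl X m Set.univ Z) (hT : Tame X m Z) :
    ∀ z ∈ Z, ∀ w ∈ Z, ∀ x ∈ Zᗮ, ⟪B z x, w⟫_ℝ = ⟪B w x, z⟫_ℝ := by
  intro z hz w hw x hx
  refine gr_ind (p := fun z => ⟪B z x, w⟫_ℝ = ⟪B w x, z⟫_ℝ) h.gr Z hZ.gr ?_ ?_ ?_ z hz
  · simp
  · intro u v hu hv
    rw [map_add, LinearMap.add_apply, inner_add_left, inner_add_right, hu, hv]
  intro i z hz hzi
  refine gr_ind (p := fun w => ⟪B z x, w⟫_ℝ = ⟪B w x, z⟫_ℝ) h.gr Z hZ.gr ?_ ?_ ?_ w hw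
  · simp
  · intro u v hu hv
    rw [map_add, LinearMap.add_apply, inner_add_left, inner_add_right, hu, hv]
  intro j w hw hwj
  refine gr_ind (p := fun x => ⟪B z x, w⟫_ℝ = ⟪B w x, z⟫_ℝ) h.gr Zᗮ (gr_compl X hZ.gr) ?_ ?_ ?_ x hx
  · simp
  · intro u v hu hv
    rw [map_add, map_add, inner_add_left, inner_add_left, hu, hv]
  intro k x hx hxk
  have e1 : ⟪B z x, w⟫_ℝ = ⟪Z.starProjection (B z x), w⟫_ℝ := by
    rw [proj_inner, proj_self hw]
  have e2 : ⟪B w x, z⟫_ℝ = ⟪Z.starProjection (B w x), z⟫_ℝ := by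
    rw [proj_inner, proj_self hz]
  by_cases hij : i = j
  · subst hij
    by_cases hik : i = k
    · subst hik
      exact h.s_sym hZ hT hz hzi hw hwj hx hxk
    · rw [e1, e2, h.s_C hZ hik hz hzi hx hxk, h.s_C hZ hik hw hwj hx hxk, real_inner_smul_left,
        real_inner_smul_left, real_inner_comm]
  · rw [e1, e2, h.gr.orth i j hij _ (h.s_mem hZ hz hzi hx hxk) w hwj,
      h.gr.orth j i (Ne.symm hij) _ (h.s_mem hZ hw hwj hx hxk) z hzi]

/-- commutation of the operators `C x` -/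
theorem s_comm' (h : BAlg X t m B D a) (hZ : Idl X m Set.univ Z) (hT : Tame X m Z) :
    ∀ z ∈ Z, ∀ w ∈ Z, ∀ x ∈ Zᗮ, ∀ y ∈ Zᗮ,
      ⟪Z.starProjection (B z x), B w y⟫_ℝ = ⟪Z.starProjection (B w x), B z y⟫_ℝ := by
  intro z hz w hw x hx y hy
  refine gr_ind (p := fun z => ⟪Z.starProjection (B z x), B w y⟫_ℝ =
    ⟪Z.starProjection (B w x), B z y⟫_ℝ) h.gr Z hZ.gr ?_ ?_ ?_ z hz
  · simp
  · intro u v hu hv
    simp only [map_add, LinearMap.add_apply, inner_add_left, inner_add_right, hu, hv]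
  intro i z hz hzi
  refine gr_ind (p := fun w => ⟪Z.starProjection (B z x), B w y⟫_ℝ =
    ⟪Z.starProjection (B w x), B z y⟫_ℝ) h.gr Z hZ.gr ?_ ?_ ?_ w hw
  · simp
  · intro u v hu hv
    simp only [map_add, LinearMap.add_apply, inner_add_left, inner_add_right, hu, hv]
  intro j w hw hwj
  refine gr_ind (p := fun x => ⟪Z.starProjection (B z x), B w y⟫_ℝ =
    ⟪Z.starProjection (B w x), B z y⟫_ℝ) h.gr Zᗮ (gr_compl X hZ.gr) ?_ ?_ ?_ x hx
  · simp
  · intro u v hu hv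
    simp only [map_add, LinearMap.add_apply, inner_add_left, inner_add_right, hu, hv]
  intro k x hx hxk
  refine gr_ind (p := fun y => ⟪Z.starProjection (B z x), B w y⟫_ℝ =
    ⟪Z.starProjection (B w x), B z y⟫_ℝ) h.gr Zᗮ (gr_compl X hZ.gr) ?_ ?_ ?_ y hy
  · simp
  · intro u v hu hv
    simp only [map_add, LinearMap.add_apply, inner_add_left, inner_add_right, hu, hv]
  intro l y hy hyl
  have e1 : ⟪Z.starProjection (B z x), B w y⟫_ℝ =
      ⟪Z.starProjection (B z x), Z.starProjection (B w y)⟫_ℝ := by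
    rw [← proj_inner Z (Z.starProjection (B z x)), proj_self (Z.starProjection_apply_mem _)]
  have e2 : ⟪Z.starProjection (B w x), B z y⟫_ℝ =
      ⟪Z.starProjection (B w x), Z.starProjection (B z y)⟫_ℝ := by
    rw [← proj_inner Z (Z.starProjection (B w x)), proj_self (Z.starProjection_apply_mem _)]
  by_cases hij : i = j
  · subst hij
    by_cases hik : i = k
    · subst hik
      by_cases hil : i = l
      · subst hil
        exact h.s_comm hZ hT hz hzi hw hwj hx hxk hy hyl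
      · rw [e1, e2, h.s_C hZ hil hw hwj hy hyl, h.s_C hZ hil hz hzi hy hyl, real_inner_smul_right,
          real_inner_smul_right, proj_inner, proj_inner, proj_self hw, proj_self hz,
          h.s_sym' hZ hT z hz w hw x hx]
    · rw [h.s_C hZ hik hz hzi hx hxk, h.s_C hZ hik hw hwj hx hxk, real_inner_smul_left,
        real_inner_smul_left, real_inner_comm (B w y), real_inner_comm (B z y),
        h.s_sym' hZ hT z hz w hw y hy]
  · rw [e1, e2, h.gr.orth i j hij _ (h.s_mem hZ hz hzi hx hxk) _ (h.s_mem hZ hw hwj hy hyl),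
      h.gr.orth j i (Ne.symm hij) _ (h.s_mem hZ hw hwj hx hxk) _ (h.s_mem hZ hz hzi hy hyl)]

theorem s_BZ (h : BAlg X t m B D a) (hZ : Idl X m Set.univ Z) (hT : Tame X m Z) :
    ∀ z ∈ Z, ∀ w ∈ Z, B z w ∈ Z := by
  intro z hz w hw
  refine gr_ind (p := fun z => B z w ∈ Z) h.gr Z hZ.gr ?_ ?_ ?_ z hz
  · simp
  · intro u v hu hv
    rw [map_add, LinearMap.add_apply]
    exact Z.add_mem hu hv
  intro i z hz hzi
  refine gr_ind (p := fun w => B z w ∈ Z) h.gr Z hZ.gr ?_ ?_ ?_ w hw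
  · simp
  · intro u v hu hv
    rw [map_add]
    exact Z.add_mem hu hv
  intro k w hw hwk
  by_cases hik : i = k
  · subst hik
    rw [← Submodule.orthogonal_orthogonal Z, Submodule.mem_orthogonal']
    intro x hx
    exact h.s_two hZ hT hz hzi hw hwk hx
  · rw [h.Bne i k hik z hzi w hwk]
    exact Z.add_mem (Z.sub_mem (Z.smul_mem _ hz) (Z.smul_mem _ hw))
      (Z.smul_mem _ (h.mul_mem hZ hz w))

theorem s_D' (h : BAlg X t m B D a) (hZ : Idl X m Set.univ Z) (hT : Tame X m Z) :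
    ∀ z ∈ Z, ∀ x ∈ Zᗮ, D z x = 0 := by
  intro z hz x hx
  refine gr_ind (p := fun z => D z x = 0) h.gr Z hZ.gr ?_ ?_ ?_ z hz
  · simp
  · intro u v hu hv
    rw [map_add, LinearMap.add_apply, hu, hv, add_zero]
  intro i z hz hzi
  refine gr_ind (p := fun x => D z x = 0) h.gr Zᗮ (gr_compl X hZ.gr) ?_ ?_ ?_ x hx
  · simp
  · intro u v hu hv
    rw [map_add, hu, hv, add_zero]
  intro k x hx hxk
  by_cases hik : i = k
  · subst hik
    exact h.s_D hZ hT hz hzi hx hxk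
  · exact h.Dne i k hik z hzi x hxk

theorem s_DD (h : BAlg X t m B D a) (hZ : Idl X m Set.univ Z) (hT : Tame X m Z) :
    ∀ z ∈ Z, ∀ w ∈ Z, ∀ x ∈ Zᗮ, ∀ y ∈ Zᗮ, ⟪D z w, D x y⟫_ℝ = 0 := by
  intro z hz w hw x hx y hy
  have hZ' := h.compl hZ
  have hT' := hT.compl hZ.gr
  have h1 := h.bi z w x y
  have hzz : z ∈ Zᗮᗮ := by rwa [Submodule.orthogonal_orthogonal]
  have hww : w ∈ Zᗮᗮ := by rwa [Submodule.orthogonal_orthogonal]
  have e1 : ⟪B z w, B x y⟫_ℝ = 0 :=
    perp (h.s_BZ hZ hT z hz w hw) (h.s_BZ hZ' hT' x hx y hy)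
  have e2 : D w x = 0 := h.s_D' hZ hT w hw x hx
  have e3 : D w y = 0 := h.s_D' hZ hT w hw y hy
  rw [e1, e2, e3, inner_zero_left, inner_zero_right, h.antiB x z, inner_neg_left] at h1
  -- both parts are symmetric
  have e4 : ∀ u v : H, ⟪u, v⟫_ℝ = ⟪Z.starProjection u, v⟫_ℝ + ⟪Zᗮ.starProjection u, v⟫_ℝ := by
    intro u v
    rw [← inner_add_left, Submodule.starProjection_add_starProjection_orthogonal]
  have e5 := h.s_comm' hZ hT z hz w hw x hx y hy
  have e6 := h.s_comm' hZ' hT' x hx y hy z hzz w hww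
  rw [h.antiB x z, h.antiB y w, h.antiB y z, h.antiB x w, map_neg, map_neg, inner_neg_neg,
    inner_neg_neg] at e6
  have e7 : ⟪Zᗮ.starProjection (B w x), B z y⟫_ℝ = ⟪Zᗮ.starProjection (B z x), B w y⟫_ℝ := by
    rw [e6, proj_inner, real_inner_comm]
  rw [e4 (B w x), e4 (B z x), e5, e7] at h1
  linarith

/-- The splitting theorem: for `z` in `Z`, `x` in the complement,
`B z x = C x z - C' z x` with commuting symmetric operators. -/
theorem split (h : BAlg X t m B D a) (Z : Submodule ℝ H) (hZ : Idl X m Set.univ Z)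
    (hT : Tame X m Z) :
    (∀ z ∈ Z, ∀ w ∈ Z, B z w ∈ Z) ∧ (∀ x ∈ Zᗮ, ∀ y ∈ Zᗮ, B x y ∈ Zᗮ) ∧
    (∀ z ∈ Z, ∀ x ∈ Zᗮ, D z x = 0) ∧
    (∀ z ∈ Z, ∀ w ∈ Z, ∀ x ∈ Zᗮ, ∀ y ∈ Zᗮ, ⟪D z w, D x y⟫_ℝ = 0) ∧
    (∀ z ∈ Z, ∀ w ∈ Z, ∀ x ∈ Zᗮ, ⟪B z x, w⟫_ℝ = ⟪B w x, z⟫_ℝ) ∧
    (∀ z ∈ Z, ∀ w ∈ Z, ∀ x ∈ Zᗮ, ∀ y ∈ Zᗮ,
      ⟪Z.starProjection (B z x), B w y⟫_ℝ = ⟪Z.starProjection (B w x), B z y⟫_ℝ) ∧
    (∀ z ∈ Z, ∀ i, ∀ x ∈ Zᗮ, P X i (Z.starProjection (B (P X i z) x)) =
      Z.starProjection (B (P X i z) x)) := by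
  refine ⟨h.s_BZ hZ hT, h.s_BZ (h.compl hZ) (hT.compl hZ.gr), h.s_D' hZ hT, h.s_DD hZ hT,
    h.s_sym' hZ hT, h.s_comm' hZ hT, ?_⟩
  intro z hz i x hx
  apply P_self
  refine gr_ind (p := fun x => Z.starProjection (B (P X i z) x) ∈ X i) h.gr Zᗮ
    (gr_compl X hZ.gr) ?_ ?_ ?_ x hx
  · simp
  · intro u v hu hv
    rw [map_add, map_add]
    exact (X i).add_mem hu hv
  intro k x hx hxk
  exact h.s_mem hZ (hZ.gr z hz i) (P_mem X i z) hx hxk

end BAlg

end Pool.Agent.Lib.MP_d0f9e0_co.K2X
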